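import Pool.Agent.U912.Sq2.Omega

set_option autoImplicit false

/-!
# The error term for the primes `n ^ 2 - 2` is `Ω(log log N)`, for most `N` of a window of every short interval

In every interval `[x, x + Y]`, `Y₀ ≤ Y ≤ x`, there is ONE window `(a, b]` of length `≥ c log Y log log Y` such that for
all sets `S` of integers (for instance all residue classes at once) and for all comparison functions with increments
`≥ κ / log` the number of the primes `n ^ 2 - 2` with `n ∈ S`, `n ≤ N` differs from the comparison function by at least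
`c κ (log Y / log x) log log Y` for at least half of the integers `N` of the window. The proof rests on
`Pool.Agent.H474R2.PG.composite_strings` of the starting library (long strings of composite values of an irreducible
polynomial), which is not handed in there.
-/

namespace Pool.Agent.Results.MP_0b748d_nt.ErrorTermWindows

open MeasureTheory

/-- the number of the integers `n ∈ S` with `2 ≤ n ≤ N` for which `n ^ 2 - 2` is a prime -/
noncomputable def primeCount (S : Set ℕ) (N : ℕ) : ℕ :=
  Set.ncard {n : ℕ | 2 ≤ n ∧ n ≤ N ∧ n ∈ S ∧ (n ^ 2 - 2).Prime}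

/-- the set of the integers `N` with `a < N ≤ b` for which the error `|P_S(N) - G(N)|` is at least `T` -/
def large (S : Set ℕ) (G : ℕ → ℝ) (a b : ℕ) (T : ℝ) : Set ℕ :=
  {N : ℕ | a < N ∧ N ≤ b ∧ T ≤ |(primeCount S N : ℝ) - G N|}

lemma count_eq (S : Set ℕ) (N : ℕ) : primeCount S N = Pool.Agent.U912.Sq2.P S N := by
  classical
  unfold primeCount Pool.Agent.U912.Sq2.P
  rw [← Set.ncard_coe_finset]
  congr 1
  ext n
  simp only [Set.mem_setOf_eq, Finset.coe_filter, Finset.mem_Icc]
  tauto

/-- There are `c > 0` and `Y₀` such that every interval `[x, x + Y]` with `Y₀ ≤ Y ≤ x` contains a window `(a, b]` with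
`b - a ≥ c log Y log log Y` and the following property: for every set `S`, every `κ ≥ 0` and every `G : ℕ → ℝ` with
`G(n + 1) - G(n) ≥ κ / log (n + 1)` for `n ≥ 2`, at least half of the integers `N` of the window satisfy
`|P_S(N) - G(N)| ≥ c κ (log Y / log x) log log Y`; in particular this holds for all `n` (`S` the set of all integers) and
`G(N) = C ∫_2^N dt / log t` with `κ = C ≥ 0`. -/
theorem result : ∃ c : ℝ, 0 < c ∧ ∃ Y₀ : ℝ, ∀ (Y : ℝ) (x : ℕ), Y₀ ≤ Y → Y ≤ x →
    ∃ a b : ℕ, x ≤ a ∧ (b : ℝ) ≤ x + Y ∧ (a : ℝ) + c * Real.log Y * Real.log (Real.log Y) ≤ b ∧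
      (∀ (S : Set ℕ) (κ : ℝ) (G : ℕ → ℝ), 0 ≤ κ →
        (∀ n : ℕ, 2 ≤ n → κ / Real.log (n + 1) ≤ G (n + 1) - G n) →
        ((b : ℝ) - a) / 2 ≤
          Set.ncard (large S G a b (c * κ * (Real.log Y / Real.log x) * Real.log (Real.log Y)))) ∧
      ∀ C : ℝ, 0 ≤ C → ((b : ℝ) - a) / 2 ≤
        Set.ncard (large Set.univ (fun N => C * ∫ t in (2 : ℝ)..(N : ℝ), 1 / Real.log t) a b
          (c * C * (Real.log Y / Real.log x) * Real.log (Real.log Y))) := by
  classical
  obtain ⟨c, hc, Y₀, h⟩ := Pool.Agent.U912.Sq2.window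
  refine ⟨c, hc, Y₀, fun Y x hY hYx => ?_⟩
  obtain ⟨a, b, h1, h2, h3, h4⟩ := h Y x hY hYx
  have key : ∀ (S : Set ℕ) (κ : ℝ) (G : ℕ → ℝ), 0 ≤ κ →
      (∀ n : ℕ, 2 ≤ n → κ / Real.log (n + 1) ≤ G (n + 1) - G n) →
      ((b : ℝ) - a) / 2 ≤
        Set.ncard (large S G a b (c * κ * (Real.log Y / Real.log x) * Real.log (Real.log Y))) := by
    intro S κ G hκ hG
    refine (h4 S κ G hκ hG).trans (le_of_eq ?_)
    rw [← Set.ncard_coe_finset]
    congr 2
    ext N
    simp only [large, Set.mem_setOf_eq, Finset.coe_filter, Finset.mem_Ioc, count_eq]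
    tauto
  exact ⟨a, b, h1, h2, h3, key, fun C hC => key Set.univ C _ hC
    (fun n hn => Pool.Agent.U912.Sq2.li_incr C hC n hn)⟩

end Pool.Agent.Results.MP_0b748d_nt.ErrorTermWindows
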