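import Mathlib
import Pool.Agent.U364.RP.Sys

/-!
# The distribution of the primes `m ^ 2 - 2` around most of their arguments, at all scales

Let `R r` be the set of the `m` for which all prime factors of `m ^ 2 - 2` are larger than `m ^ (1 / r)`; it contains the set `Sol` of
all `m` with `m ^ 2 - 2` prime. For every `0 < θ ≤ 1` and all large `r`: every interval `(X, X + Y]` with `X ^ θ ≤ Y ≤ X`
contains at least `κ Y / log X` elements of `R r` for which `m ^ 2 - 2` has at most `r` prime factors; for EVERY subset `A` of `R r` and every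
interval `(X, X + Y]`, `X ^ θ ≤ Y ≤ X / 2`, all but at most `ε Y / log X` of the elements of `A` in it are regular points of `A`.
So, if a set `P` of `m` with `m ^ 2 - 2` prime has at least `κ Y / log X` elements in `(X, X + Y]`, then all of them but a proportion `ε` are
regular points of `P` and have neighbours in `P` on both sides at distance at most `C log X`.

Definitions (`Pool.Agent.U364.RP`): `N A a b` is the number of the elements of `A` in `(a, b]`; `Regular A k c δ B X Y` is the set
of the regular points of `A`: the elements `m` of `A` such that all intervals `(m - s, m + t]` with `s, t ≤ Y` and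
`s + t ≥ log ^ k X / c` contain between `c (s + t) / log ^ k X` and `(s + t) / (c log ^ k X)` elements of `A`, and that `A` has
constant density on both sides of `m` up to `δ` at all dyadic scales up to `Y` with at most `B` exceptions; `Near P k c C δ B X Y`
is the set of the regular points of `P` with neighbours in `P` on both sides at distance at most `C log ^ k X`.

Proof: the theorem on regular points (starting files, `Pool.Agent.TH977.PW`) for these polynomials.
-/

set_option autoImplicit false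

namespace Pool.Agent.Results.MP_0b748d_nt.RegularArguments

open Filter
open Pool.Agent.U364.RP (N Regular Near)

/-- the value -/
def val (m : ℕ) : ℕ := m ^ 2 - 2

/-- All prime factors of `val m` are larger than `m ^ (1 / r)`. -/
def R (r : ℕ) : Set ℕ := {m | ∀ p : ℕ, p.Prime → p ∣ val m → (m : ℝ) ^ (1 / (r : ℝ)) < (p : ℝ)}

/-- the elements `m` of `R r` for which `val m` has at most `r` prime factors, counted with multiplicity -/
def Al (r : ℕ) : Set ℕ := {m | m ∈ R r ∧ (val m).primeFactorsList.length ≤ r}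

/-- the integers with prime `val m` -/
def Sol : Set ℕ := {m | (val m).Prime}

/-- **Regular points and neighbours.** -/
theorem result (θ : ℝ) (hθ : 0 < θ) (hθ1 : θ ≤ 1) :
    (∃ r₀ : ℕ, 2 ≤ r₀ ∧ ∀ r : ℕ, r₀ ≤ r → Sol ⊆ R r ∧
      (∃ κ : ℝ, 0 < κ ∧ ∀ᶠ X : ℕ in atTop, ∀ Y : ℕ, (X : ℝ) ^ θ ≤ Y → Y ≤ X →
        κ * Y / Real.log X ^ 1 ≤ N (Al r) X (X + Y)) ∧
      ∀ ε : ℝ, 0 < ε → ∃ c : ℝ, 0 < c ∧ ∀ δ : ℝ, 0 < δ → ∃ B : ℕ,
        ∀ᶠ X : ℕ in atTop, ∀ Y : ℕ, (X : ℝ) ^ θ ≤ Y → 2 * Y ≤ X → ∀ A : Set ℕ, A ⊆ R r →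
          (N {m | m ∈ A ∧ m ∉ Regular A 1 c δ B X Y} X (X + Y) : ℝ) ≤ ε * Y / Real.log X ^ 1) ∧
    ∀ κ ε : ℝ, 0 < κ → 0 < ε → ∃ c C : ℝ, 0 < c ∧ 0 < C ∧ ∀ δ : ℝ, 0 < δ → ∃ B : ℕ,
      ∀ᶠ X : ℕ in atTop, ∀ Y : ℕ, (X : ℝ) ^ θ ≤ Y → 2 * Y ≤ X → ∀ P : Set ℕ, P ⊆ Sol →
        κ * Y / Real.log X ^ 1 ≤ N P X (X + Y) →
        (1 - ε) * N P X (X + Y) ≤ N (Near P 1 c C δ B X Y) X (X + Y) := by
  refine Pool.Agent.U364.RP.gen (fun _ : Fin 1 => Pool.Agent.TH464.PW.quad 1 0 (-2))
    (Pool.Agent.U364.RP.sys_quad 1 0 (-2) (by norm_num) 0 1 (by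
      rw [Int.isCoprime_iff_gcd_eq_one]
      norm_num) (by
      rintro ⟨a, ha⟩
      norm_num at ha
      have h2 : a ≤ 3 := by nlinarith
      have h3 : -3 ≤ a := by nlinarith
      interval_cases a <;> omega)) (fun _ => val) (fun _ m => ?_) Sol R Al (fun r m hm _ => hm)
    (fun r m h1 h2 => ⟨h1 0, h2 0⟩) (fun r hr m hm p hp hd => ?_) 1 (Fintype.card_fin 1) θ hθ hθ1
  · rw [Pool.Agent.TH464.PW.quad_eval]
    rcases Nat.lt_or_ge m 2 with h | h
    · right
      refine ⟨by omega, ?_⟩
      unfold val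
      interval_cases m <;> norm_num
    · left
      unfold val
      have h5 : 2 ≤ m ^ 2 := by nlinarith
      push_cast [h5]
      ring
  · exact Pool.Agent.U364.RP.rough_of_prime r m (val m) p hr hm (by
      unfold val
      have h2 : (m ^ 2 - 2).Prime := hm
      have h3 := h2.two_le
      have h4 : 2 ≤ m := by
        by_contra h5
        interval_cases m <;> omega
      have h5 : m * 2 ≤ m ^ 2 := by nlinarith
      omega) hp hd

end Pool.Agent.Results.MP_0b748d_nt.RegularArguments
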