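import Mathlib
import Pool.Agent.U364.ST.Uni
import Pool.Agent.U364.ST.Adm

/-!
# Strings of consecutive primes `p` with almost prime `n ^ 2 - 2`, `n = h p`, uniformly in the odd multiplier `h`

The question is about primes `n ^ 2 - 2`; `n` is odd, except for `n = 2`. Here `n` is restricted to the multiples `n = h p` of the primes.

Let `m ≥ 1` and `A` be given. There are `C`, `B`, `r` and `δ > 0` such that for every finite set `T` of at least `C` nonnegative
integers (the patterns are taken from it) and all large `N` the following holds for EVERY multiplier `1 ≤ h ≤ N ^ A` which is odd: at least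
`1 / C` of all the `m`-element subsets `H` of `T` are the patterns of strings of `m` CONSECUTIVE primes `p` for all of which
the numbers `(h p) ^ 2 - 2` are almost prime (at most `r` prime factors, all of them at least `N ^ δ`), and each of these patterns
occurs at least `N / (log N) ^ B` times in `(N, 2 N]`. The primes can be taken from any residue class `a` modulo a
squarefree `q` for which this is possible. `C`, `B` and `δ` do not depend on `A`.

Proof: the theorem on strings of consecutive primes with almost prime values, uniformly in the polynomial (starting files,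
`Pool.Agent.R498.MP.stringsUR`), the passage to a positive proportion of the patterns (starting files,
`Pool.Agent.Helper32K9.Str`), uniformly in the multiplier (`Pool.Agent.U364.ST.Uni`).
-/

set_option autoImplicit false

namespace Pool.Agent.Results.MP_0b748d_nt.StringsOfMultiples

open Filter Polynomial

/-- `(h p) ^ 2 - 2` has at most `r` prime factors, counted with multiplicity, all of them at least `w`. -/
def Good (h r : ℕ) (w : ℝ) (p : ℕ) : Prop :=
  ((h * p) ^ 2 - 2).primeFactorsList.length ≤ r ∧ ∀ q : ℕ, q.Prime → q ∣ (h * p) ^ 2 - 2 → w ≤ q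

/-- The pattern `H` occurs at least `N / (log N) ^ B` times in `(N, 2 N]`: there are at least that many `n > N` with
`n + max H ≤ 2 N` such that the primes in `[n, n + max H]` are exactly the numbers `n + s`, `s ∈ H`, and these primes are
`≡ a` modulo `q` and good with the parameters `r` and `N ^ δ`. -/
def Occurs (h q a r : ℕ) (δ : ℝ) (B N : ℕ) (H : Finset ℕ) : Prop :=
  ∃ F : Finset ℕ, (N : ℝ) ≤ Real.log N ^ B * F.card ∧
    ∀ n ∈ F, N < n ∧ n + H.sup id ≤ 2 * N ∧ (∀ y ≤ H.sup id, (n + y).Prime ↔ y ∈ H) ∧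
      ∀ s ∈ H, n + s ≡ a [MOD q] ∧ Good h r ((N : ℝ) ^ δ) (n + s)

/-- the polynomial -/
noncomputable def P : ℤ[X] := X ^ 2 - 2

theorem P_eval (n : ℤ) : P.eval n = n ^ 2 - 2 := by
  unfold P
  simp

theorem P_cast (n : ℕ) (hn : 2 ≤ n) : P.eval (n : ℤ) = ((n ^ 2 - 2 : ℕ) : ℤ) := by
  rw [P_eval]
  have h1 : 2 ≤ n ^ 2 := by nlinarith
  rw [Nat.cast_sub h1]
  push_cast
  ring

theorem nonzero (n : ℤ) : n ^ 2 - 2 ≠ 0 := by
  intro h
  have h1 : n.natAbs * n.natAbs = 2 := by
    zify
    rw [← sq, sq_abs]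
    linarith
  have h2 : n.natAbs ≤ 1 := by nlinarith
  interval_cases n.natAbs <;> omega


/-- **Strings of consecutive primes `p` with almost prime `(h p) ^ 2 - 2`, uniformly in the odd numbers `h ≤ N ^ A`.** -/
theorem result (q : ℕ) (hq : Squarefree q) (m : ℕ) (hm : 1 ≤ m) :
    ∃ (C B : ℕ) (δ : ℝ), 0 < C ∧ 0 < δ ∧ ∀ A : ℕ, ∃ r : ℕ, ∀ T : Finset ℕ, C ≤ T.card →
      ∀ᶠ N : ℕ in atTop, ∀ h : ℕ, 1 ≤ h → h ≤ N ^ A → Odd h → ∀ a : ℕ, IsCoprime ((a : ℤ) * (((h : ℤ) * a) ^ 2 - 2)) (q : ℤ) →
      T.card.choose m ≤ C * {H : Finset ℕ | H ⊆ T ∧ H.card = m ∧ Occurs h q a r δ B N H}.ncard := by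
  obtain ⟨C₀, B, δ, hC, hδ, hmain⟩ := Pool.Agent.U364.ST.mult_prop P (fun n hn => by
      rw [P_eval]
      exact nonzero n) q hq m hm
  refine ⟨C₀, B, δ, hC, hδ, fun A => ?_⟩
  obtain ⟨r, hr⟩ := hmain A
  refine ⟨r, fun T hT => ?_⟩
  filter_upwards [hr T hT] with N hN
  intro h hh1 hhA hh2 a ha
  refine hN h hh1 hhA (fun p hp => ?_) a (by rw [P_eval]; exact ha) (Good h) (fun r w p hp _ hAP => ?_)
  · refine Pool.Agent.U364.ST.adm_h P h p hp (fun hph => ?_) (fun hph => ?_)
    · rw [P_eval]
      have hp2 : p ≠ 2 := by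
        rintro rfl
        have h1 : 2 ∣ h := by exact_mod_cast hph
        rcases hh2 with ⟨k, rfl⟩
        omega
      have := Pool.Agent.U364.ST.not_dvd_two_pow p hp hp2 1
      norm_num at this ⊢
      exact this
    · refine ⟨1, Pool.Agent.U364.ST.not_dvd_unit p hp _ (Or.inl rfl), ?_⟩
      rw [P_eval]
      exact Pool.Agent.U364.ST.not_dvd_unit p hp _ (Or.inr (by norm_num))
  · have e : (h : ℤ) * (p : ℤ) = ((h * p : ℕ) : ℤ) := by push_cast; ring
    have hhp : 2 ≤ h * p := by nlinarith [hp.two_le]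
    rw [e, P_cast _ hhp] at hAP
    exact Pool.Agent.R498.MP.AP_nat r w _ hAP

end Pool.Agent.Results.MP_0b748d_nt.StringsOfMultiples
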